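import Pool.Agent.H2.SPL.OverRecurrentProof

open MeasureTheory Filter Set
open scoped Topology

namespace Pool.Agent.Results.MP_be5f19_an.OverRecurrent

variable {X : Type*}

/-- **Over-recurrent sets exist in every non-trivial mixing system, with arbitrarily slow rate.** -/
theorem result {X : Type*} [MeasurableSpace X] (μ : Measure X) [IsProbabilityMeasure μ]
    (T : Equiv.Perm X) (hT : MeasurePreserving T μ μ) (hT' : Measurable T.symm)
    (hmix : ∀ A B : Set X, MeasurableSet A → MeasurableSet B →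
      Tendsto (fun n : ℕ => μ (A ∩ (T ^ (n : ℤ)) '' B)) atTop (𝓝 (μ A * μ B)))
    (hne : ∃ A, MeasurableSet A ∧ 0 < μ A ∧ μ A < 1)
    (ε : ℕ → ℝ) (hε0 : ∀ n, 0 ≤ ε n) (hε : Tendsto ε atTop (𝓝 0)) :
    ∃ A, MeasurableSet A ∧ 0 < μ A ∧ ∃ η : ℝ, 0 < η ∧
      ∀ n : ℤ, n ≠ 0 → μ.real A ^ 2 + η * ε n.natAbs < μ.real (A ∩ (T ^ n) '' A) :=
  result_proof μ T hT hT' hmix hne ε hε0 hε

end Pool.Agent.Results.MP_be5f19_an.OverRecurrent
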